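import Pool.Agent.Y143.WeilNum

/-!
# The eigenvalues of the powers of an operator on a subquotient
-/

set_option autoImplicit false

open Module Polynomial

universe u v

namespace Pool.Agent.K1H75.PW

open Pool.Agent.Y143

variable {Ω : Type u} [Field Ω] {V : Type v} [AddCommGroup V] [Module Ω V]

lemma exists_eigen_list {F : Module.End Ω V} {A B : Submodule Ω V} (hA : ∀ x ∈ A, F x ∈ A)
    (l : List Ω) {x : V} (hx : x ∈ A) (hx' : x ∉ B)
    (h : (l.map (fun β => F - β • (1 : Module.End Ω V))).prod x ∈ B) :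
    ∃ β ∈ l, ∃ y ∈ A, y ∉ B ∧ F y - β • y ∈ B := by
  induction l with
  | nil => exact absurd (by simpa using h) hx'
  | cons b l ih =>
    rw [List.map_cons, List.prod_cons, Module.End.mul_apply] at h
    by_cases h1 : (l.map (fun β => F - β • (1 : Module.End Ω V))).prod x ∈ B
    · obtain ⟨β, hβ, y, hy⟩ := ih h1
      exact ⟨β, List.mem_cons_of_mem _ hβ, y, hy⟩
    · refine ⟨b, List.mem_cons_self, _, ?_, h1, h⟩
      have : ∀ l' : List Ω, (l'.map (fun β => F - β • (1 : Module.End Ω V))).prod x ∈ A := by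
        intro l'
        induction l' with
        | nil => simpa using hx
        | cons c l' ih' =>
          rw [List.map_cons, List.prod_cons, Module.End.mul_apply]
          exact A.sub_mem (hA _ ih') (A.smul_mem c ih')
      exact this l

/-- An eigenvalue of a power of `F` on a subquotient is a power of an eigenvalue. -/
lemma exists_eigen_pow [IsAlgClosed Ω] {F : Module.End Ω V} {A B : Submodule Ω V} (hA : ∀ x ∈ A, F x ∈ A)
    {j : ℕ} (hj : 0 < j) {α : Ω} {x : V} (hx : x ∈ A) (hx' : x ∉ B) (he : (F ^ j) x - α • x ∈ B) :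
    ∃ β : Ω, β ^ j = α ∧ ∃ y ∈ A, y ∉ B ∧ F y - β • y ∈ B := by
  classical
  set P : Polynomial Ω := X ^ j - C α with hP
  have hPm : P.Monic := monic_X_pow_sub_C α hj.ne'
  have hprod : P = (P.roots.toList.map (fun a => X - C a)).prod := by
    have h1 := (IsAlgClosed.splits P).eq_prod_roots
    rw [hPm.leadingCoeff, C_1, one_mul] at h1
    conv_lhs => rw [h1]
    rw [← Multiset.coe_toList P.roots, Multiset.map_coe, Multiset.prod_coe, Multiset.coe_toList]
  have h2 : aeval F P = (P.roots.toList.map (fun β => F - β • (1 : Module.End Ω V))).prod := by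
    conv_lhs => rw [hprod]
    rw [map_list_prod, List.map_map]
    congr 1
    apply List.map_congr_left
    intro a _
    rw [Function.comp_apply, map_sub, aeval_X, aeval_C, Algebra.algebraMap_eq_smul_one]
  have h3 : aeval F P x = (F ^ j) x - α • x := by
    rw [hP, map_sub, map_pow, aeval_X, aeval_C, Algebra.algebraMap_eq_smul_one]
    rfl
  obtain ⟨β, hβ, y, hy, hy', hyB⟩ := exists_eigen_list hA P.roots.toList hx hx' (by rw [← h2, h3]; exact he)
  refine ⟨β, ?_, y, hy, hy', hyB⟩
  have h4 := (mem_roots'.1 (Multiset.mem_toList.1 hβ)).2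
  rw [hP, IsRoot.def, eval_sub, eval_pow, eval_X, eval_C] at h4
  exact sub_eq_zero.1 h4

/-- The eigenvalues of the powers of an operator on a graded piece. -/
theorem pow_weil [CharZero Ω] [IsAlgClosed Ω] {q : ℕ} {w : ℤ} {F : Module.End Ω V} {A B : Submodule Ω V}
    (hA : ∀ x ∈ A, F x ∈ A)
    (h : ∀ (α : Ω) (x : V), x ∈ A → x ∉ B → F x - α • x ∈ B → IsWeilNumber q w α) (j : ℕ) (α : Ω) (x : V)
    (hx : x ∈ A) (hx' : x ∉ B) (he : (F ^ j) x - α • x ∈ B) : IsWeilNumber q (j * w) α := by
  rcases Nat.eq_zero_or_pos j with rfl | hj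
  · have h1 : α = 1 := by
      by_contra hne
      apply hx'
      have h2 : (1 - α) • x ∈ B := by
        rw [sub_smul, one_smul]
        simpa using he
      exact (Submodule.smul_mem_iff _ (sub_ne_zero.2 (Ne.symm hne))).1 h2
    subst h1
    simpa using IsWeilNumber.one (Ω := Ω) q
  · obtain ⟨β, hβ, y, hy, hy', hyB⟩ := exists_eigen_pow hA hj hx hx' he
    rw [← hβ]
    exact (h β y hy hy' hyB).pow j

/-- Q1 for `H^m_pst(X)`, for a variety with semistable reduction, on which the Weil group acts through the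
powers of the linear Frobenius `F = φ ^ h`: there is a monodromy filtration `M` of `N`, stable under `F`, and
for all `s` and `j ≥ 0` the eigenvalues of `F ^ j` on `gr^M_s` are algebraic numbers all of whose complex
conjugates have absolute value `q ^ (j (m + s) / 2)`. -/
def PadicMonodromyWeight [CharZero Ω] (q m : ℕ) (F N : Module.End Ω V) : Prop :=
  ∃ M : ℤ → Submodule Ω V, IsMonodromyFiltration N M ∧ (∀ s x, x ∈ M s → F x ∈ M s) ∧
    ∀ (s : ℤ) (j : ℕ) (α : Ω) (x : V), x ∈ M s → x ∉ M (s - 1) → (F ^ j) x - α • x ∈ M (s - 1) →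
      IsWeilNumber q (j * (m + s)) α

theorem padic_of_mw [CharZero Ω] [IsAlgClosed Ω] {q m : ℕ} {F N : Module.End Ω V} (h : IsMWPure q m F N) :
    PadicMonodromyWeight q m F N := by
  obtain ⟨M, h1, h2, h3⟩ := h
  refine ⟨M, h1, h2, fun s j α x hx hx' he => ?_⟩
  refine pow_weil (A := M s) (B := M (s - 1)) (fun x hx => h2 s x hx) (fun α x h4 h5 h6 => ?_) j α x hx hx' he
  have := h3 s α x h4 h5 h6
  rwa [add_comm] at this

end Pool.Agent.K1H75.PW
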