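import Pool.Agent.X302.MW.Three
import Pool.Agent.K1H75.PW.Pow

/-!
# The restriction on `H^2` of the components in all dimensions

The library file `X302.MW.Three` treats threefolds, where the triple intersections are curves. Here the dimension
is arbitrary and the Frobenius eigenvalues on `H^2` of the triple intersections are `q` times roots of unity.
-/

set_option autoImplicit false

open Module

universe u v

namespace Pool.Agent.K1H75.PW

open Pool.Agent.Y143 Pool.Agent.X302.MW

variable {Ω : Type u} [Field Ω] [CharZero Ω] {Γ : Type} {n q : ℕ}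

/-- The Frobenius eigenvalues on `H^2(Y^(3))` are products of `q` and roots of unity. -/
def TateTriple (X : SpecialFibre.{u, v} Ω Γ n q) : Prop :=
  ∀ α : Ω, ¬ IsTateNumber q α → frobPart X 2 2 α = ⊥

lemma tate_root {α : Ω} (hq : (q : Ω) ≠ 0) (h : IsTateNumber q α) : ∃ k : ℕ, 0 < k ∧ (α / q) ^ k = 1 := by
  obtain ⟨k, hk, hk'⟩ := h
  refine ⟨k, hk, ?_⟩
  rw [div_pow, div_eq_one_iff_eq (pow_ne_zero _ hq)]
  exact hk'

lemma not_tate {α : Ω} (hq : (q : Ω) ≠ 0) (R : ValuationSubring Ω) (h : α / q ∉ R) : ¬ IsTateNumber q α := by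
  intro ht
  obtain ⟨k, hk, hk'⟩ := tate_root hq ht
  exact h (mem_of_int R (IsIntegral.of_pow hk (by rw [hk']; exact isIntegral_one)))

/-- For threefolds the condition on the triple intersections holds. -/
lemma tateTriple_three (X : SpecialFibre.{u, v} Ω Γ n q) (hn : n = 3) (hI : HasIntegralFrobenius X) :
    TateTriple X := by
  intro α hα
  rw [Submodule.eq_bot_iff]
  intro x hx
  by_contra hx0
  have hq : (q : Ω) ≠ 0 := Nat.cast_ne_zero.2 X.q_ne
  apply hα
  have h1 := h2_curve X hn hI hx hx0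
  obtain ⟨y, hy, hy0, h⟩ := exists_eigen_gr X 2 2 hx hx0
  have hw := X.weil 2 2 α y hy hy0 h
  have hq0 : (0 : ℝ) < q := by exact_mod_cast Nat.pos_of_ne_zero X.q_ne
  obtain ⟨k, hk, hk'⟩ := root_of_unity h1 (by
    intro z hz
    obtain ⟨y', hy'⟩ : ∃ y' : ℂ, y' = (q : ℂ) * z := ⟨_, rfl⟩
    have halg : IsAlgebraic ℚ α := hw.1
    have h2 : Polynomial.aeval ((q : ℂ) * z) (minpoly ℚ α) = 0 := by
      have h3 : minpoly ℚ ((q : Ω)⁻¹ * α) ∣
          (minpoly ℚ α).comp (Polynomial.C (q : ℚ) * Polynomial.X) := by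
        apply minpoly.dvd
        rw [Polynomial.aeval_comp]
        have : Polynomial.aeval ((q : Ω)⁻¹ * α) (Polynomial.C (q : ℚ) * Polynomial.X) = α := by
          rw [map_mul, Polynomial.aeval_C, Polynomial.aeval_X, map_natCast, ← mul_assoc,
            mul_inv_cancel₀ hq, one_mul]
        rw [this, minpoly.aeval]
      obtain ⟨g, hg⟩ := h3
      have h4 := congrArg (Polynomial.aeval z) hg
      rw [map_mul, hz, zero_mul, Polynomial.aeval_comp] at h4
      have : Polynomial.aeval z (Polynomial.C (q : ℚ) * Polynomial.X) = (q : ℂ) * z := by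
        rw [map_mul, Polynomial.aeval_C, Polynomial.aeval_X, map_natCast]
      rwa [this] at h4
    have h5 := hw.2 _ h2
    rw [norm_mul, Complex.norm_natCast] at h5
    have h6 : (q : ℝ) ^ (((2 : ℤ) : ℝ) / 2) = q := by
      norm_num
    rw [h6] at h5
    have := mul_left_cancel₀ hq0.ne' (h5.trans (mul_one _).symm)
    exact this)
  exact isTate_of_root hq hk hk'

section loc

variable [IsAlgClosed Ω] (X : SemistableModel.{u, v} Ω Γ n q)

/-- If the slopes of `H^3` of the generic fibre are at least one, then the restriction is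
surjective on the part of `H^2(Y^(2))` of slope less than one. -/
lemma res_surj' (hI : HasIntegralFrobenius X.toSpecialFibre) (hY : TateTriple X.toSpecialFibre)
    (R : ValuationSubring Ω)
    (h3 : ∀ α, IsEigenvalueOn X 3 α → α / q ∈ R) {α : Ω} (hα : α / q ∉ R)
    {z : X.H 1} (hz : z ∈ frobPart X.toSpecialFibre 1 2 α) :
    ∃ y ∈ frobPart X.toSpecialFibre 0 2 α, X.res 0 y = z := by
  classical
  have hq : (q : Ω) ≠ 0 := Nat.cast_ne_zero.2 X.q_ne
  have hα' : (q : Ω)⁻¹ * α ∉ R := by rwa [← div_eq_inv_mul]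
  have hcol : InColumn 1 1 := ⟨by simp, ⟨0, by simp⟩⟩
  have hxE : (Pi.single 1 z : X.C) ∈ X.E₁ 1 2 := by
    apply X.single_mem hcol
    simpa using hz.1
  have hres : X.res 1 z = 0 := by
    have h1 := res_frobPart X.toSpecialFibre 1 2 hz
    rw [hY α (not_tate hq R hα)] at h1
    exact h1
  have hxc : (Pi.single 1 z : X.C) ∈ X.cocycles 1 2 := by
    refine ⟨hxE, ?_⟩
    rw [SetLike.mem_coe, LinearMap.mem_ker]
    funext b
    rw [X.diff_apply]
    by_cases hc : InColumn (1 + 1) b
    · have hc1 := hc.1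
      rw [show |(1 : ℤ) + 1| = 2 by norm_num] at hc1
      rw [X.cut_of hc, Pi.add_apply, X.gysC_apply, Pi.single_eq_of_ne (by omega), map_zero,
        add_zero]
      cases b with
      | zero => rfl
      | succ b =>
        rw [X.resC_succ]
        by_cases hb : b = 1
        · subst hb
          rw [Pi.single_eq_same, hres]
          rfl
        · rw [Pi.single_eq_of_ne hb, map_zero]
          rfl
    · rw [X.cut_of_not hc]
      rfl
  have hgen := single_gen X.toSpecialFibre 1 1 rfl hz.2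
  by_cases hb : (Pi.single 1 z : X.C) ∈ X.coboundaries 1 2
  · obtain ⟨v, hvE, hvg, hv⟩ := cob_gen X.toSpecialFibre 1 2 hgen hb
    rw [show (1 : ℤ) - 1 = 0 by norm_num] at hvE hvg hv
    have hv2 : v 2 = 0 := by
      by_contra hne
      have h4 := comp_gen X.toSpecialFibre 0 hvg 2
      rw [show (((2 : ℕ) : ℤ) - 0) / 2 = 1 by norm_num, zpow_one] at h4
      have h5 := (hvE 2).1
      rw [show (2 : ℤ) + 0 - ((2 : ℕ) : ℤ) = 0 by norm_num] at h5
      exact hα' (mem_of_int R (h0_root X.toSpecialFibre hI 2 ⟨h5, h4⟩ hne).1)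
    refine ⟨v 0, ⟨?_, ?_⟩, ?_⟩
    · have h5 := (hvE 0).1
      rwa [show (2 : ℤ) + 0 - ((0 : ℕ) : ℤ) = 2 by norm_num] at h5
    · have h4 := comp_gen X.toSpecialFibre 0 hvg 0
      rwa [show (((0 : ℕ) : ℤ) - 0) / 2 = 0 by norm_num, zpow_zero, inv_one, one_mul] at h4
    · have h6 := congrFun hv 1
      rw [Pi.single_eq_same, X.diff_apply, X.cut_of (by simpa using hcol), Pi.add_apply,
        X.gysC_apply] at h6
      have h7 : X.gys 1 (v (1 + 1)) = 0 := by
        have : v (1 + 1) = 0 := hv2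
        rw [this, map_zero]
      rw [h7, add_zero] at h6
      exact h6
  · exfalso
    obtain ⟨x', hx', hxB', hx''⟩ := exists_eigen_mod (X.actC 1 X.frob) α (Z := X.cocycles 1 2)
      (fun x hx => zc_stable X 1 2 hx) hxc hb hgen
    have e : ((3 : ℕ) : ℤ) - 2 = 1 := by norm_num
    apply hα
    apply h3
    apply eigen_generic X 3 2 (x := x')
    · rw [e]; exact hx'
    · rw [e]; exact hxB'
    · rw [e]; exact hx''

/-- The part of the kernel of `H^2(Y^(1)) → H^2(Y^(2))` of Frobenius eigenvalue `α`. If `α` is not `q` times a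
root of unity, this is the part of `gr^W_2 H^2` of the generic fibre of Frobenius eigenvalue `α`. -/
def kerPart (X : SpecialFibre.{u, v} Ω Γ n q) (α : Ω) : Submodule Ω (X.H 0) :=
  frobPart X 0 2 α ⊓ LinearMap.ker (X.res 0)

/-- The characteristic polynomial of the Frobenius on the kernel of `H^2(Y^(1)) → H^2(Y^(2))` is rational, up to
the factors for the eigenvalues which are `q` times a root of unity. -/
def RationalKernel (X : SpecialFibre.{u, v} Ω Γ n q) : Prop :=
  ∀ α α' : Ω, ¬ IsTateNumber q α → AreConjugate α α' → finrank Ω (kerPart X α) = finrank Ω (kerPart X α')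

lemma tate_conj {α α' : Ω} (h : AreConjugate α α') (ht : IsTateNumber q α') : IsTateNumber q α := by
  obtain ⟨k, hk, hk'⟩ := ht
  refine ⟨k, hk, ?_⟩
  have h1 : minpoly ℚ α' ∣ Polynomial.X ^ k - Polynomial.C ((q : ℚ) ^ k) := by
    apply minpoly.dvd
    rw [map_sub, map_pow, Polynomial.aeval_X, Polynomial.aeval_C, map_pow, map_natCast, hk', sub_self]
  rw [← h.2.2] at h1
  obtain ⟨g, hg⟩ := h1
  have h2 := congrArg (Polynomial.aeval α) hg
  rw [map_mul, minpoly.aeval, zero_mul, map_sub, map_pow, Polynomial.aeval_X, Polynomial.aeval_C, map_pow,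
    map_natCast] at h2
  exact sub_eq_zero.1 h2

/-- If all the Frobenius eigenvalues on `H^2` of the generic fibre are `q` times roots of unity, the condition
holds. -/
lemma rationalKernel_of_tate (hI : HasIntegralFrobenius X.toSpecialFibre)
    (h2 : ∀ α, IsEigenvalueOn X 2 α → IsTateNumber q α) : RationalKernel X.toSpecialFibre := by
  have key : ∀ α, ¬ IsTateNumber q α → kerPart X.toSpecialFibre α = ⊥ := by
    intro α hα
    rw [Submodule.eq_bot_iff]
    rintro y ⟨hy, hy'⟩
    exact res_inj X hI h2 hα hy hy'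
  intro α α' hα h
  rw [key α hα, key α' (fun ht => hα (tate_conj h ht))]

lemma rank_null (α : Ω) [Module.Finite Ω (X.H 0)] :
    finrank Ω ((frobPart X.toSpecialFibre 0 2 α).map (X.res 0)) + finrank Ω (kerPart X.toSpecialFibre α) =
      finrank Ω (frobPart X.toSpecialFibre 0 2 α) := by
  have h := LinearMap.finrank_range_add_finrank_ker
    ((X.res 0).domRestrict (frobPart X.toSpecialFibre 0 2 α))
  have h5 : LinearMap.range ((X.res 0).domRestrict (frobPart X.toSpecialFibre 0 2 α)) =
      (frobPart X.toSpecialFibre 0 2 α).map (X.res 0) := by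
    ext t
    constructor
    · rintro ⟨s, rfl⟩
      exact ⟨s, s.2, rfl⟩
    · rintro ⟨s, hs, rfl⟩
      exact ⟨⟨s, hs⟩, rfl⟩
  have h6 : finrank Ω (LinearMap.ker ((X.res 0).domRestrict (frobPart X.toSpecialFibre 0 2 α))) =
      finrank Ω (kerPart X.toSpecialFibre α) := by
    refine LinearEquiv.finrank_eq (LinearEquiv.ofBijective
      ({ toFun := fun x => ⟨(x : frobPart X.toSpecialFibre 0 2 α), ⟨x.1.2, x.2⟩⟩
         map_add' := fun _ _ => rfl
         map_smul' := fun _ _ => rfl } :
        LinearMap.ker ((X.res 0).domRestrict (frobPart X.toSpecialFibre 0 2 α)) →ₗ[Ω]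
          kerPart X.toSpecialFibre α) ⟨?_, ?_⟩)
    · intro x y hxy
      have h7 := congrArg (fun t : kerPart X.toSpecialFibre α => (t : X.H 0)) hxy
      exact Subtype.ext (Subtype.ext h7)
    · rintro ⟨y, hy, hy'⟩
      exact ⟨⟨⟨y, hy⟩, hy'⟩, rfl⟩
  rw [h5, h6] at h
  exact h

/-- The restriction is surjective on the part of `H^2(Y^(2))` of every eigenvalue which is not `q` times a root
of unity. -/
theorem surj_nonTate (hq : IsPrimePow q)
    (hI : HasIntegralFrobenius X.toSpecialFibre) (hY : TateTriple X.toSpecialFibre)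
    (hC0 : SameFrobenius X.toSpecialFibre X.toSpecialFibre 0 2)
    (hC1 : SameFrobenius X.toSpecialFibre X.toSpecialFibre 1 2)
    (hK : RationalKernel X.toSpecialFibre)
    (R : ValuationSubring Ω) (hR : ((q : Ω))⁻¹ ∉ R)
    (h3 : ∀ α, IsEigenvalueOn X 3 α → α / q ∈ R)
    (α : Ω) (hα : ¬ IsTateNumber q α) (z : X.H 1) (hz : z ∈ frobPart X.toSpecialFibre 1 2 α) :
    ∃ y ∈ frobPart X.toSpecialFibre 0 2 α, X.res 0 y = z := by
  by_cases hz0 : z = 0
  · exact ⟨0, Submodule.zero_mem _, by rw [hz0, map_zero]⟩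
  have hfin0 : Module.Finite Ω (X.H 0) := (X.duality 0).1.finite
  have hfin1 : Module.Finite Ω (X.H 1) := (X.duality 1).1.finite
  obtain ⟨y, hy, hy0, hyα⟩ := exists_eigen_gr X.toSpecialFibre 1 2 hz hz0
  have hint := hI 1 2 α y hy hy0 hyα
  have hw := X.weil 1 2 α y hy hy0 hyα
  obtain ⟨α', hα', hαR⟩ : ∃ α' : Ω, Polynomial.aeval α' (minpoly ℚ α) = 0 ∧ α' / q ∉ R := by
    by_contra hcon
    push Not at hcon
    exact hα (tate_of_val hq R hR hint hw hcon)
  have hconj : AreConjugate α α' := by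
    have halg : IsAlgebraic ℚ α := hw.1
    refine ⟨halg, ?_, ?_⟩
    · exact ⟨minpoly ℚ α, minpoly.ne_zero halg.isIntegral, hα'⟩
    · exact minpoly.eq_of_irreducible_of_monic (minpoly.irreducible halg.isIntegral) hα'
        (minpoly.monic halg.isIntegral)
  have hmap : ∀ β : Ω, (frobPart X.toSpecialFibre 0 2 β).map (X.res 0) ≤
      frobPart X.toSpecialFibre 1 2 β := by
    rintro β _ ⟨y', hy', rfl⟩
    exact res_frobPart X.toSpecialFibre 0 2 hy'
  have hfull' : (frobPart X.toSpecialFibre 0 2 α').map (X.res 0) = frobPart X.toSpecialFibre 1 2 α' := by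
    refine le_antisymm (hmap α') ?_
    intro z' hz'
    obtain ⟨y', hy', hyz'⟩ := res_surj' X hI hY R h3 hαR hz'
    exact ⟨y', hy', hyz'⟩
  have e1 := rank_null X α
  have e2 : finrank Ω (frobPart X.toSpecialFibre 1 2 α') + finrank Ω (kerPart X.toSpecialFibre α') =
      finrank Ω (frobPart X.toSpecialFibre 0 2 α') := by
    rw [← rank_null X α', hfull']
  have e3 := hC0 α α' hconj
  have e4 := hC1 α α' hconj
  have e5 := hK α α' hα hconj
  have e6 : finrank Ω (frobPart X.toSpecialFibre 1 2 α) =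
      finrank Ω ((frobPart X.toSpecialFibre 0 2 α).map (X.res 0)) := by
    generalize finrank Ω ((frobPart X.toSpecialFibre 0 2 α).map (X.res 0)) = a1 at e1 ⊢
    generalize finrank Ω (frobPart X.toSpecialFibre 1 2 α) = a2 at e4 ⊢
    generalize finrank Ω (frobPart X.toSpecialFibre 0 2 α) = a3 at e1 e3
    generalize finrank Ω (kerPart X.toSpecialFibre α) = a4 at e1 e5
    omega
  have hfull := Submodule.eq_of_le_of_finrank_le (hmap α) e6.le
  rw [← hfull] at hz
  obtain ⟨y', hy', hyz'⟩ := hz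
  exact ⟨y', hy', hyz'⟩

end loc

section cover

variable [IsAlgClosed Ω] (X : Degeneration.{u, v} Ω Γ n q)

lemma prim_single (hI : HasIntegralFrobenius X.toSpecialFibre)
    {χ : Γ → Ω} (hα : ¬ IsTateNumber q (χ X.frob)) {x : X.C} (hx : x ∈ X.primPart 1 2 χ) :
    x = Pi.single 1 (x 1) ∧ x 1 ∈ frobPart X.toSpecialFibre 1 2 (χ X.frob) := by
  classical
  have hq : (q : Ω) ≠ 0 := Nat.cast_ne_zero.2 X.q_ne
  obtain ⟨⟨hxE, -⟩, hxW⟩ := hx
  have hxg : x ∈ Module.End.maxGenEigenspace (X.actC 1 X.frob) (χ X.frob) := by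
    have h1 : x ∈ Wt (X.actC 1) χ := hxW
    unfold Wt at h1
    rw [Submodule.mem_iInf] at h1
    exact h1 X.frob
  refine ⟨?_, ?_, ?_⟩
  · funext b
    by_cases hb : b = 1
    · subst hb
      rw [Pi.single_eq_same]
    · rw [Pi.single_eq_of_ne hb]
      by_cases hc : InColumn 1 b
      · have hc2 := hc.2
        have hc1 := hc.1
        rw [abs_one] at hc1
        by_cases hb3 : b = 3
        · subst hb3
          by_contra hne
          have h3 := comp_gen X.toSpecialFibre 1 hxg 3
          rw [show (((3 : ℕ) : ℤ) - 1) / 2 = 1 by norm_num, zpow_one] at h3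
          have h4 := (hxE 3).1
          rw [show (2 : ℤ) + 1 - ((3 : ℕ) : ℤ) = 0 by norm_num] at h4
          obtain ⟨-, k, hk, hk'⟩ := h0_root X.toSpecialFibre hI 3 ⟨h4, h3⟩ hne
          exact hα (isTate_of_root hq hk hk')
        · have h4 := (hxE b).1
          have h5 : X.gr b (2 + 1 - (b : ℤ)) = ⊥ := X.gr_eq_bot b _ (Or.inl (by omega))
          rw [h5] at h4
          exact h4
      · exact (hxE b).2 hc
  · have := (hxE 1).1
    rwa [show (2 : ℤ) + 1 - ((1 : ℕ) : ℤ) = 2 by norm_num] at this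
  · have := comp_gen X.toSpecialFibre 1 hxg 1
    rwa [show (((1 : ℕ) : ℤ) - 1) / 2 = 0 by norm_num, zpow_zero, inv_one, one_mul] at this

/-- If the restriction is surjective on the part of eigenvalue `χ(frob)`, the primitive part is covered. -/
lemma covered' (hI : HasIntegralFrobenius X.toSpecialFibre) {χ : Γ → Ω}
    (hα : ¬ IsTateNumber q (χ X.frob))
    (hs : ∀ z ∈ frobPart X.toSpecialFibre 1 2 (χ X.frob),
      ∃ y ∈ frobPart X.toSpecialFibre 0 2 (χ X.frob), X.res 0 y = z) :
    X.primPart 1 2 χ ≤ X.coboundaries 1 2 := by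
  classical
  intro x hxp
  obtain ⟨hx, hx1⟩ := prim_single X hI hα hxp
  have hcol : InColumn 1 1 := ⟨by simp, ⟨0, by simp⟩⟩
  obtain ⟨y, hy, hyz⟩ := hs (x 1) hx1
  have hcol0 : InColumn 0 0 := ⟨by simp, ⟨0, by simp⟩⟩
  refine ⟨Pi.single 0 y, ?_, ?_⟩
  · rw [show (1 : ℤ) - 1 = 0 by norm_num]
    apply X.single_mem hcol0
    simpa using hy.1
  · rw [show (1 : ℤ) - 1 = 0 by norm_num, hx]
    funext b
    rw [X.diff_apply]
    by_cases hc : InColumn (0 + 1) b
    · rw [X.cut_of hc, Pi.add_apply, X.gysC_apply, Pi.single_eq_of_ne (by omega), map_zero,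
        add_zero]
      cases b with
      | zero =>
        have := hc.1
        rw [zero_add, abs_one] at this
        norm_num at this
      | succ b =>
        rw [X.resC_succ]
        by_cases hb : b = 0
        · subst hb
          rw [Pi.single_eq_same, hyz]
          show x 1 = (Pi.single 1 (x 1) : X.C) 1
          rw [Pi.single_eq_same]
        · rw [Pi.single_eq_of_ne hb, map_zero, Pi.single_eq_of_ne (by omega)]
    · rw [X.cut_of_not hc]
      by_cases hb : b = 1
      · subst hb
        exact absurd (by simpa using hcol) hc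
      · rw [Pi.single_eq_of_ne hb]

/-- Purity of `H^m`, `m ≤ 3` or `m ≥ 2 n - 3`, from the surjectivity of the restriction on the non-Tate part. -/
theorem mw_third (hI : HasIntegralFrobenius X.toSpecialFibre)
    (A : DivisorClasses X.toSpecialFibre) (hT : A.TateConj 0)
    (hs : ∀ α : Ω, ¬ IsTateNumber q α → ∀ z ∈ frobPart X.toSpecialFibre 1 2 α,
      ∃ y ∈ frobPart X.toSpecialFibre 0 2 α, X.res 0 y = z) (m : ℕ) (hm : m ≤ 3 ∨ 2 * n ≤ m + 3) :
    IsMWPure q m (X.actV m X.frob) (X.N m) := by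
  apply mw X A m
  intro a w χ h1 h2 h3
  obtain rfl : w = 2 := by omega
  obtain rfl : a = 0 := by omega
  by_cases hα : IsTateNumber q (χ X.frob)
  · right
    right
    right
    refine ⟨rfl, fun x hx hxW => ?_⟩
    apply hT _ hα x hx
    unfold Wt at hxW
    rw [Submodule.mem_iInf] at hxW
    exact hxW X.frob
  · left
    right
    left
    have := covered' X hI hα (hs _ hα)
    simpa using this

end cover

end Pool.Agent.K1H75.PW
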