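import Pool.Agent.Y163.MW.Defs
import Pool.Agent.Y143.Mon
import Pool.Agent.K1H75.PW.Pow

/-!
# The p-adic cohomology `H^m_pst,p(X)` of varieties over a p-adic field

`K` is a `p`-adic field with residue field with `q = p ^ h` elements, `Ω` is an algebraic closure of
`P_0 = W(k̄)[1/p]`. We record the structures on `⨁ H^m_pst,p(X) ⊗ Ω`: the degrees, the linear action of the
Weil group and the monodromy operator `N`.
-/

set_option autoImplicit false

open Module TensorProduct

universe u v w

namespace Pool.Agent.K1H75.PW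

open Pool.Agent.Y143 Pool.Agent.H914 Pool.Agent.Y163.MW

/-- The Weil group `W_K`: a group with the map `deg = v / h` to the integers, and an element `frob` with
`deg frob = 1` (a geometric Frobenius). The inertia group consists of the `g` with `deg g = 0`. -/
structure WeilGroup where
  /-- the group -/
  W : Type
  [group : Group W]
  /-- the degree `v / h` -/
  deg : W → ℤ
  deg_mul : ∀ g g', deg (g * g') = deg g + deg g'
  /-- a geometric Frobenius -/
  frob : W
  deg_frob : deg frob = 1

attribute [instance] WeilGroup.group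

/-- The data `H^m_pst,p(X) ⊗ Ω`: the space `V = ⨁ H^m_pst,p(X)`, its parts `gr m = H^m_pst,p(X)`, the
linear action `act` of the Weil group and the monodromy operator `N`. -/
structure Pst (Ω : Type w) [Field Ω] (G : WeilGroup) where
  /-- the cohomology -/
  V : Type v
  [addCommGroup : AddCommGroup V]
  [module : Module Ω V]
  /-- the cohomology in degree `m` -/
  gr : ℕ → Submodule Ω V
  /-- the action of the Weil group -/
  act : G.W →* Module.End Ω V
  /-- the monodromy operator -/
  N : Module.End Ω V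

attribute [instance] Pst.addCommGroup Pst.module

namespace Pst

variable {Ω : Type w} [Field Ω] [CharZero Ω] {G : WeilGroup} (R : Pst.{v, w} Ω G) (q : ℕ)

/-- **Q1 for `H^m_pst,p(X)`**: `N` has a monodromy filtration `M` on `H^m`, stable under the Weil group, and
for all `g` and `s` every eigenvalue of `g` on `M_s / M_(s - 1)` is an algebraic number all of whose complex
conjugates have absolute value `q ^ (deg g * (m + s) / 2) = p ^ ((m + s) v(g) / 2)`. -/
def Q1 (m : ℕ) : Prop :=
  ∃ M : ℤ → Submodule Ω R.V, IsMonodromyFiltrationOn (R.gr m) R.N M ∧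
    (∀ g s x, x ∈ M s → R.act g x ∈ M s) ∧
    ∀ (g : G.W) (s : ℤ) (α : Ω) (x : R.V), x ∈ M s → x ∉ M (s - 1) → R.act g x - α • x ∈ M (s - 1) →
      IsWeilNumber q (G.deg g * (m + s)) α

/-- The form `B` is nondegenerate, the `gr m` are orthogonal to each other, and
`B(g x, g y) = q ^ (m deg g) B(x, y)` on `gr m`. -/
structure IsSelfDual (B : R.V →ₗ[Ω] R.V →ₗ[Ω] Ω) : Prop where
  nondeg : ∀ x, (∀ y, B x y = 0) → x = 0
  orth : ∀ m m' x y, x ∈ R.gr m → y ∈ R.gr m' → m ≠ m' → B x y = 0
  act : ∀ g m x y, x ∈ R.gr m → y ∈ R.gr m → B (R.act g x) (R.act g y) = (q : Ω) ^ (m * G.deg g) * B x y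

/-- The known properties: the operators respect the degrees; `N` is nilpotent and `N g = q ^ (deg g) g N`
(from `N φ = p φ N`); the inertia group acts through a finite quotient; the eigenvalues of the geometric
Frobenius elements are `q`-Weil numbers of integral weights (Mokrane, de Jong); and (Poincare duality and the
hard Lefschetz theorem) `H^m` is self-dual up to a Tate twist. -/
structure IsPst : Prop where
  finite : Module.Finite Ω R.V
  isInternal : DirectSum.IsInternal R.gr
  act_gr : ∀ g, Respects R.gr (R.act g)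
  N_gr : Respects R.gr R.N
  nilp : ∃ r : ℕ, R.N ^ r = 0
  N_act : ∀ g x, R.N (R.act g x) = (q : Ω) ^ (G.deg g) • R.act g (R.N x)
  inertia : (R.act '' {g | G.deg g = 0}).Finite
  weil : ∀ g, G.deg g = 1 → HasWeights q R.gr (R.act g)
  dual : ∃ B, R.IsSelfDual q B

/-- The restriction of the action to the powers of the chosen geometric Frobenius. -/
def toCoh : Coh.{v, w} Ω := ⟨R.V, R.gr, R.act G.frob, R.N⟩

variable {R q}

lemma IsPst.toCoh (h : R.IsPst q) : R.toCoh.IsCoh q where
  finite := h.finite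
  isInternal := h.isInternal
  F_gr := h.act_gr G.frob
  N_gr := h.N_gr
  N_F := fun x => by
    have := h.N_act G.frob x
    rwa [G.deg_frob, zpow_one] at this
  weil := h.weil G.frob G.deg_frob
  dual := by
    obtain ⟨B, hB⟩ := h.dual
    refine ⟨B, hB.nondeg, hB.orth, fun m x y hx hy => ?_⟩
    have := hB.act G.frob m x y hx hy
    rwa [G.deg_frob, mul_one, zpow_natCast] at this

end Pst

namespace WeilGroup

variable (G : WeilGroup)

lemma deg_one : G.deg 1 = 0 := by
  have := G.deg_mul 1 1
  rw [mul_one] at this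
  omega

lemma deg_inv (g : G.W) : G.deg g⁻¹ = -G.deg g := by
  have := G.deg_mul g g⁻¹
  rw [mul_inv_cancel, deg_one] at this
  omega

lemma deg_pow (g : G.W) (n : ℕ) : G.deg (g ^ n) = n * G.deg g := by
  induction n with
  | zero => simp [deg_one]
  | succ n ih =>
    rw [pow_succ, deg_mul, ih]
    push_cast
    ring

lemma deg_zpow (g : G.W) (n : ℤ) : G.deg (g ^ n) = n * G.deg g := by
  obtain ⟨k, rfl | rfl⟩ := n.eq_nat_or_neg
  · rw [zpow_natCast, deg_pow]
  · rw [zpow_neg, zpow_natCast, deg_inv, deg_pow]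
    ring

end WeilGroup

namespace Pst

variable {Ω : Type w} [Field Ω] [CharZero Ω] {G : WeilGroup} {R : Pst.{v, w} Ω G} {q : ℕ}

omit [CharZero Ω] in
/-- Up to a finite order, an element of the Weil group acts like a power of the Frobenius. -/
lemma exists_pow_eq (h : (R.act '' {g | G.deg g = 0}).Finite) (g : G.W) :
    ∃ r : ℕ, 0 < r ∧ R.act (g ^ r) = R.act (G.frob ^ (r * G.deg g)) := by
  set d := G.deg g with hd
  let f : ℕ → Module.End Ω R.V := fun i => R.act (g ^ i * G.frob ^ (-((i : ℤ) * d)))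
  have hf : ∀ i, f i ∈ R.act '' {g | G.deg g = 0} := by
    intro i
    refine ⟨_, ?_, rfl⟩
    change G.deg (g ^ i * G.frob ^ (-((i : ℤ) * d))) = 0
    rw [G.deg_mul, G.deg_pow, G.deg_zpow, G.deg_frob, ← hd]
    ring
  obtain ⟨i, j, hij, hfij⟩ : ∃ i j, i < j ∧ f i = f j := by
    have hinf : ¬ Function.Injective f := by
      intro hinj
      exact Set.infinite_range_of_injective hinj (h.subset (Set.range_subset_iff.2 hf))
    rw [Function.not_injective_iff] at hinf
    obtain ⟨a, b, hab, hne⟩ := hinf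
    rcases lt_or_gt_of_ne hne with h1 | h1
    · exact ⟨a, b, h1, hab⟩
    · exact ⟨b, a, h1, hab.symm⟩
  refine ⟨j - i, by omega, ?_⟩
  have h1 : R.act (g⁻¹ ^ i) * f i * R.act (G.frob ^ ((j : ℤ) * d)) =
      R.act (g⁻¹ ^ i) * f j * R.act (G.frob ^ ((j : ℤ) * d)) := by rw [hfij]
  simp only [f, ← map_mul] at h1
  have e1 : g⁻¹ ^ i * (g ^ i * G.frob ^ (-((i : ℤ) * d))) * G.frob ^ ((j : ℤ) * d) =
      G.frob ^ (((j - i : ℕ) : ℤ) * d) := by
    rw [inv_pow, inv_mul_cancel_left, ← zpow_add]
    congr 1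
    rw [Nat.cast_sub hij.le]
    ring
  have e2 : g⁻¹ ^ i * (g ^ j * G.frob ^ (-((j : ℤ) * d))) * G.frob ^ ((j : ℤ) * d) =
      g ^ (j - i) := by
    rw [mul_assoc, mul_assoc, ← zpow_add, neg_add_cancel, zpow_zero, mul_one, inv_pow]
    rw [inv_mul_eq_iff_eq_mul, ← pow_add]
    congr 1
    omega
  rw [e1, e2] at h1
  exact h1.symm

omit [CharZero Ω] in
lemma act_inv_cancel (g : G.W) (x : R.V) : R.act g⁻¹ (R.act g x) = x := by
  rw [← Module.End.mul_apply, ← map_mul, inv_mul_cancel, map_one, Module.End.one_apply]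

/-- The eigenvalues of `g` with `deg g ≥ 0`. -/
lemma weil_of_nonneg [IsAlgClosed Ω] (h : (R.act '' {g | G.deg g = 0}).Finite) {A B : Submodule Ω R.V}
    (hA : ∀ g, ∀ x ∈ A, R.act g x ∈ A) (hB : ∀ g, ∀ x ∈ B, R.act g x ∈ B) {w : ℤ}
    (hF : ∀ (α : Ω) (x : R.V), x ∈ A → x ∉ B → R.act G.frob x - α • x ∈ B → IsWeilNumber q w α)
    {g : G.W} (hg : 0 ≤ G.deg g) {α : Ω} {x : R.V} (hx : x ∈ A) (hx' : x ∉ B)
    (he : R.act g x - α • x ∈ B) : IsWeilNumber q (G.deg g * w) α := by
  obtain ⟨r, hr, hr'⟩ := exists_pow_eq h g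
  obtain ⟨d, hd⟩ := Int.eq_ofNat_of_zero_le hg
  have h1 : ∀ k : ℕ, R.act (g ^ k) x - α ^ k • x ∈ B := by
    intro k
    induction k with
    | zero => simp
    | succ k ih =>
      have h2 : R.act (g ^ (k + 1)) x - α ^ (k + 1) • x =
          R.act g (R.act (g ^ k) x - α ^ k • x) + α ^ k • (R.act g x - α • x) := by
        rw [pow_succ' g, map_mul, Module.End.mul_apply, map_sub, map_smul, smul_sub, smul_smul, ← pow_succ]
        abel
      rw [h2]
      exact add_mem (hB g _ ih) (B.smul_mem _ he)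
  have h3 := h1 r
  rw [hr', hd, show (r : ℤ) * (d : ℤ) = ((r * d : ℕ) : ℤ) by push_cast; rfl, zpow_natCast, map_pow] at h3
  have h4 := pow_weil (q := q) (w := w) (hA G.frob) hF (r * d) _ x hx hx' h3
  rw [hd]
  apply IsWeilNumber.of_pow hr
  convert h4 using 1
  push_cast
  ring

/-- The eigenvalues of all `g`. -/
lemma weil_all [IsAlgClosed Ω] (h : (R.act '' {g | G.deg g = 0}).Finite) {A B : Submodule Ω R.V}
    (hA : ∀ g, ∀ x ∈ A, R.act g x ∈ A) (hB : ∀ g, ∀ x ∈ B, R.act g x ∈ B) {w : ℤ}
    (hF : ∀ (α : Ω) (x : R.V), x ∈ A → x ∉ B → R.act G.frob x - α • x ∈ B → IsWeilNumber q w α)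
    (g : G.W) {α : Ω} {x : R.V} (hx : x ∈ A) (hx' : x ∉ B)
    (he : R.act g x - α • x ∈ B) : IsWeilNumber q (G.deg g * w) α := by
  rcases le_total 0 (G.deg g) with hg | hg
  · exact weil_of_nonneg h hA hB hF hg hx hx' he
  · have hα : α ≠ 0 := by
      rintro rfl
      apply hx'
      rw [zero_smul, sub_zero] at he
      have := hB g⁻¹ _ he
      rwa [act_inv_cancel] at this
    have he' : R.act g⁻¹ x - α⁻¹ • x ∈ B := by
      have h1 := B.smul_mem (-α⁻¹) (hB g⁻¹ _ he)
      rw [map_sub, map_smul, act_inv_cancel, smul_sub, smul_smul, neg_mul, inv_mul_cancel₀ hα, neg_smul,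
        neg_smul, one_smul, sub_neg_eq_add, neg_add_eq_sub] at h1
      exact h1
    have h2 := weil_of_nonneg (g := g⁻¹) h hA hB hF (by rw [G.deg_inv]; omega) hx hx' he'
    have h3 := h2.inv
    rw [inv_inv, G.deg_inv] at h3
    convert h3 using 1
    ring

/-- Q1 for all the elements of the Weil group follows from the assertion for one geometric Frobenius. -/
theorem q1_iff [IsAlgClosed Ω] (hq : 1 < q) (hR : R.IsPst q) (m : ℕ) : R.Q1 q m ↔ R.toCoh.MWPure q m := by
  constructor
  · rintro ⟨M, h1, -, h3⟩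
    refine ⟨M, h1, fun s α x hx hx' he => ?_⟩
    have := h3 G.frob s α x hx hx' he
    rwa [G.deg_frob, one_mul] at this
  · rintro ⟨M, h1, h2⟩
    have hst : ∀ g s x, x ∈ M s → R.act g x ∈ M s := fun g s x hx =>
      h1.functorial h1 (R.act g) (hR.act_gr g m) (c := (q : Ω) ^ (G.deg g))
        (zpow_ne_zero _ (Nat.cast_ne_zero.2 (by omega))) (fun x _ => hR.N_act g x) s hx
    refine ⟨M, h1, hst, fun g s α x hx hx' he => ?_⟩
    exact weil_all hR.inertia (fun g x hx => hst g s x hx) (fun g x hx => hst g (s - 1) x hx)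
      (fun α x hx hx' he => h2 s α x hx hx' he) g hx hx' he

end Pst

/-- The monodromy filtration of the whole cohomology. -/
lemma IsMonodromyFiltration.on {Ω : Type w} [Field Ω] {V : Type v} [AddCommGroup V] [Module Ω V]
    {N : Module.End Ω V} {M : ℤ → Submodule Ω V} (h : IsMonodromyFiltration N M) :
    IsMonodromyFiltrationOn ⊤ N M where
  mono := h.mono
  bot := h.bot
  top := h.top
  le := fun _ => le_top
  map := h.map
  inj := h.inj
  surj := h.surj

/-- The Künneth formula: an isomorphism of the tensor product of `R` and `R'` with `R''` which respects the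
degrees and the operators. -/
structure IsPstKunneth {Ω : Type w} [Field Ω] {G : WeilGroup} (R R' R'' : Pst.{v, w} Ω G)
    (κ : R.V ⊗[Ω] R'.V ≃ₗ[Ω] R''.V) : Prop where
  degree : KDegree κ R.gr R'.gr R''.gr
  act : ∀ g, KMultiplicative κ (R.act g) (R'.act g) (R''.act g)
  monodromy : KLeibniz κ R.N R'.N R''.N

/-- The data `H^*_pst,p(X) ⊗ Ω` for all the smooth proper varieties over `K`. -/
structure PstTheory (K : Type u) [Field K] (Ω : Type w) [Field Ω] (G : WeilGroup) where
  /-- the cohomology of `X` -/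
  H : SmVar.{u} K → Pst.{v, w} Ω G

namespace PstTheory

variable {K : Type u} [Field K] {Ω : Type w} [Field Ω] [CharZero Ω] {G : WeilGroup}

/-- The known properties of the cohomology `H^*_pst,p(X)` of the smooth proper varieties over a `p`-adic
field `K` with residue field with `q` elements. -/
structure IsPadic (T : PstTheory.{u, v, w} K Ω G) (q : ℕ) : Prop where
  pst : ∀ X, (T.H X).IsPst q
  kunneth : ∀ X Y, ∃ κ, IsPstKunneth (T.H X) (T.H Y) (T.H (X.prod Y)) κ

/-- The restriction of the actions to the powers of the chosen geometric Frobenius. -/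
def toTheory (T : PstTheory.{u, v, w} K Ω G) : Theory.{u, v, w} K Ω := ⟨fun X => (T.H X).toCoh⟩

lemma IsPadic.toTheory {T : PstTheory.{u, v, w} K Ω G} {q : ℕ} (h : T.IsPadic q) :
    T.toTheory.IsLocal q where
  coh := fun X => (h.pst X).toCoh
  kunneth := fun X Y => by
    obtain ⟨κ, hκ⟩ := h.kunneth X Y
    exact ⟨κ, hκ.degree, hκ.act G.frob, hκ.monodromy⟩

end PstTheory

end Pool.Agent.K1H75.PW
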